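import Pool.Agent.H16.TO.Targets

/-!
# Module CN: constancy along coordinates
-/

set_option autoImplicit false

namespace Pool.Agent.H42.TW

open Classical in
/-- the point with the free coordinates set to zero -/
noncomputable def flat (r : ℕ) (J : Set ℕ) (x : ℕ → ℕ) : ℕ → ℕ :=
  fun i => if i ∈ J ∨ r ≤ i then x i else 0

theorem flat_const {α : Type} (r : ℕ) (n : ℕ → ℕ) (J : Set ℕ) (g : (ℕ → ℕ) → α)
    (hg : ∀ x : ℕ → ℕ, (∀ i, x i < n i) → ∀ j < r, j ∉ J → x j + 1 < n j →
      g x = g (Function.update x j (x j + 1))) :
    ∀ (m : ℕ) (x : ℕ → ℕ), (∀ i, x i < n i) →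
      (∑ i ∈ Finset.range r, flat r Jᶜ x i) ≤ m → g x = g (flat r J x) := by
  intro m
  induction m with
  | zero =>
    intro x hx hs
    have h0 : ∀ i ∈ Finset.range r, flat r Jᶜ x i = 0 := by
      intro i hi
      exact (Finset.sum_eq_zero_iff.1 (Nat.le_zero.1 hs)) i hi
    congr 1
    funext i
    unfold flat
    by_cases h : i ∈ J ∨ r ≤ i
    · simp [h]
    · push Not at h
      have h1 := h0 i (Finset.mem_range.2 h.2)
      unfold flat at h1
      rw [if_pos (Or.inl (by simpa using h.1))] at h1
      rw [if_neg (by push Not; exact h), h1]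
  | succ m ih =>
    intro x hx hs
    by_cases hz : (∑ i ∈ Finset.range r, flat r Jᶜ x i) ≤ m
    · exact ih x hx hz
    · have hpos : (∑ i ∈ Finset.range r, flat r Jᶜ x i) ≠ 0 := by omega
      obtain ⟨j, hj, hj0⟩ := Finset.exists_ne_zero_of_sum_ne_zero hpos
      have hjr := Finset.mem_range.1 hj
      have hjJ : j ∉ J := by
        intro h
        apply hj0
        unfold flat
        rw [if_neg]
        push Not
        exact ⟨by simpa using h, hjr⟩
      have hxj : x j ≠ 0 := by
        unfold flat at hj0
        rw [if_pos (Or.inl (by simpa using hjJ))] at hj0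
        exact hj0
      obtain ⟨a, ha⟩ := Nat.exists_eq_succ_of_ne_zero hxj
      set x' : ℕ → ℕ := Function.update x j a with hx'
      have hx'j : x' j = a := by simp [hx']
      have hx'i : ∀ i, i ≠ j → x' i = x i := by
        intro i hi
        simp [hx', Function.update_of_ne hi]
      have hbox : ∀ i, x' i < n i := by
        intro i
        by_cases hi : i = j
        · subst hi
          rw [hx'j]
          have := hx i
          omega
        · rw [hx'i i hi]; exact hx i
      have hup : Function.update x' j (x' j + 1) = x := by
        funext i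
        by_cases hi : i = j
        · subst hi
          simp [hx'j, ha]
        · rw [Function.update_of_ne hi, hx'i i hi]
      have hstep := hg x' hbox j hjr hjJ (by rw [hx'j]; have := hx j; omega)
      rw [hup] at hstep
      have hflat : flat r J x' = flat r J x := by
        funext i
        unfold flat
        by_cases hi : i ∈ J ∨ r ≤ i
        · rw [if_pos hi, if_pos hi]
          apply hx'i
          rintro rfl
          rcases hi with hi | hi
          · exact hjJ hi
          · omega
        · rw [if_neg hi, if_neg hi]
      have hlt : (∑ i ∈ Finset.range r, flat r Jᶜ x' i) <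
          ∑ i ∈ Finset.range r, flat r Jᶜ x i := by
        apply Finset.sum_lt_sum
        · intro i _
          unfold flat
          by_cases hi : i ∈ Jᶜ ∨ r ≤ i
          · rw [if_pos hi, if_pos hi]
            by_cases hij : i = j
            · subst hij
              rw [hx'j]
              omega
            · rw [hx'i i hij]
          · rw [if_neg hi, if_neg hi]
        · refine ⟨j, hj, ?_⟩
          unfold flat
          have hm : j ∈ Jᶜ ∨ r ≤ j := Or.inl (by simpa using hjJ)
          rw [if_pos hm, if_pos hm, hx'j, ha]
          omega
      rw [← hstep, ← hflat]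
      exact ih x' hbox (by omega)

theorem pf_cn : Pool.Agent.H16.TO.T_CN := by
  intro α r n J g hg x y hx hy hxy
  rw [flat_const r n J g hg _ x hx le_rfl, flat_const r n J g hg _ y hy le_rfl]
  congr 1
  funext i
  unfold flat
  by_cases h : i ∈ J ∨ r ≤ i
  · rw [if_pos h, if_pos h]; exact hxy i h
  · rw [if_neg h, if_neg h]

end Pool.Agent.H42.TW
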